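import Pool.Agent.helper81.CW.Spec2

/-! # Project cw, module G3: Poincare inequality for odd Lipschitz functions -/

open MeasureTheory Set
open scoped ENNReal Pointwise

namespace Pool.Agent.helper81.CW

theorem G3_two_add_sq_le (t : ℝ) : 2 + t ^ 2 ≤ Real.exp t + Real.exp (-t) := by
  have h1 : Real.exp t + Real.exp (-t) = 2 * Real.cosh t := by rw [Real.cosh_eq]; ring
  have h2 : Real.cosh t = 1 + 2 * Real.sinh (t / 2) ^ 2 := by
    have h3 : Real.cosh (2 * (t / 2)) = Real.cosh (t / 2) ^ 2 + Real.sinh (t / 2) ^ 2 :=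
      Real.cosh_two_mul _
    rw [Real.cosh_sq, mul_div_cancel₀ t (two_ne_zero)] at h3
    linarith
  have h4 : (t / 2) ^ 2 ≤ Real.sinh (t / 2) ^ 2 := by
    rcases le_total 0 (t / 2) with h | h
    · have h5 := Real.self_le_sinh_iff.2 h
      nlinarith
    · have h5 := Real.sinh_le_self_iff.2 h
      nlinarith
  rw [h1, h2]
  nlinarith

theorem G3_dens_meas (n : ℕ) : Measurable
    (fun x : E n => ENNReal.ofReal (Real.exp (-‖x‖ ^ 2 / 2) / Real.sqrt (2 * Real.pi) ^ n)) := by
  fun_prop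

/-- integrability with respect to the Gaussian measure -/
theorem G3_integrable_iff (n : ℕ) (f : E n → ℝ) : Integrable f (gm n) ↔
    Integrable (fun x => f x * (Real.exp (-‖x‖ ^ 2 / 2) / Real.sqrt (2 * Real.pi) ^ n)) volume := by
  unfold gm
  rw [integrable_withDensity_iff (G3_dens_meas n)
    (Filter.Eventually.of_forall fun x => ENNReal.ofReal_lt_top)]
  have e : ∀ x : E n, (ENNReal.ofReal (Real.exp (-‖x‖ ^ 2 / 2) /
      Real.sqrt (2 * Real.pi) ^ n)).toReal = Real.exp (-‖x‖ ^ 2 / 2) / Real.sqrt (2 * Real.pi) ^ n :=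
    fun x => ENNReal.toReal_ofReal (by positivity)
  simp only [e]

theorem G3_gauss (n : ℕ) : Integrable (fun x : E n => Real.exp (-(1 / 4) * ‖x‖ ^ 2)) volume := by
  have h := GaussianFourier.integrable_cexp_neg_mul_sq_norm_add (V := E n) (b := (1 / 4 : ℂ))
    (by norm_num) 0 0
  have h2 := h.norm
  refine h2.congr (Filter.Eventually.of_forall fun x => ?_)
  show ‖Complex.exp (-(1 / 4 : ℂ) * (‖x‖ : ℂ) ^ 2 + 0 * ((inner ℝ (0 : E n) x : ℝ) : ℂ))‖ =
    Real.exp (-(1 / 4) * ‖x‖ ^ 2)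
  have e : (-(1 / 4 : ℂ) * (‖x‖ : ℂ) ^ 2 + 0 * ((inner ℝ (0 : E n) x : ℝ) : ℂ)) =
      ((-(1 / 4) * ‖x‖ ^ 2 : ℝ) : ℂ) := by push_cast; ring
  rw [e, Complex.norm_exp, Complex.ofReal_re]

theorem G3_cont {n : ℕ} {g : E n → ℝ} {R : ℝ} (hg : ∀ x y, |g x - g y| ≤ R * ‖x - y‖) :
    Continuous g := by
  have h : LipschitzWith (Real.toNNReal R) g := by
    refine LipschitzWith.of_dist_le_mul fun x y => ?_
    rw [Real.dist_eq, dist_eq_norm]
    refine (hg x y).trans (mul_le_mul_of_nonneg_right ?_ (norm_nonneg _))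
    exact Real.le_coe_toNNReal R
  exact h.continuous

/-- exponential integrability of Lipschitz functions -/
theorem G3_exp {n : ℕ} {g : E n → ℝ} {R : ℝ} (hR : 0 ≤ R)
    (hg : ∀ x y, |g x - g y| ≤ R * ‖x - y‖) (h0 : g 0 = 0) :
    Integrable (fun x => Real.exp (g x)) (gm n) := by
  rw [G3_integrable_iff]
  refine Integrable.mono' ((G3_gauss n).const_mul
    (Real.exp (R ^ 2) / Real.sqrt (2 * Real.pi) ^ n)) ?_ ?_
  · have hc := G3_cont hg
    exact (by fun_prop : Continuous fun x => Real.exp (g x) *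
      (Real.exp (-‖x‖ ^ 2 / 2) / Real.sqrt (2 * Real.pi) ^ n)).aestronglyMeasurable
  · refine Filter.Eventually.of_forall fun x => ?_
    rw [Real.norm_of_nonneg (by positivity)]
    have h1 : g x ≤ R * ‖x‖ := by
      have := hg x 0
      rw [h0, sub_zero, sub_zero] at this
      exact (le_abs_self _).trans this
    have h2 : Real.exp (g x) * Real.exp (-‖x‖ ^ 2 / 2) ≤
        Real.exp (R ^ 2) * Real.exp (-(1 / 4) * ‖x‖ ^ 2) := by
      rw [← Real.exp_add, ← Real.exp_add, Real.exp_le_exp]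
      nlinarith [sq_nonneg (R - ‖x‖ / 2)]
    calc Real.exp (g x) * (Real.exp (-‖x‖ ^ 2 / 2) / Real.sqrt (2 * Real.pi) ^ n)
        = (Real.exp (g x) * Real.exp (-‖x‖ ^ 2 / 2)) / Real.sqrt (2 * Real.pi) ^ n := by ring
      _ ≤ (Real.exp (R ^ 2) * Real.exp (-(1 / 4) * ‖x‖ ^ 2)) / Real.sqrt (2 * Real.pi) ^ n := by
          gcongr
      _ = Real.exp (R ^ 2) / Real.sqrt (2 * Real.pi) ^ n * Real.exp (-(1 / 4) * ‖x‖ ^ 2) := by ring

theorem G3 (hG1 : G1_stmt) (hG2 : G2_stmt) : G3_stmt := by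
  intro n g R hR hg hodd
  obtain ⟨hprob, hinv⟩ := hG1 n
  have hcont := G3_cont hg
  have h0 : g 0 = 0 := by
    have := hodd 0
    rw [neg_zero] at this
    linarith
  -- scaled functions
  have hsc : ∀ l : ℝ, ∀ x y : E n, |l * g x - l * g y| ≤ (|l| * R) * ‖x - y‖ := by
    intro l x y
    rw [← mul_sub, abs_mul, mul_assoc]
    exact mul_le_mul_of_nonneg_left (hg x y) (abs_nonneg l)
  have hint : ∀ l : ℝ, Integrable (fun x => Real.exp (l * g x)) (gm n) := by
    intro l
    exact G3_exp (mul_nonneg (abs_nonneg l) hR) (hsc l) (by rw [h0, mul_zero])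
  have hsym : ∀ l : ℝ, ∫ x, Real.exp (-(l * g x)) ∂(gm n) = ∫ x, Real.exp (l * g x) ∂(gm n) := by
    intro l
    have hm : AEMeasurable (fun x : E n => -x) (gm n) := measurable_neg.aemeasurable
    have hc : Continuous fun x => Real.exp (l * g x) := by fun_prop
    have h1 : ∫ x, Real.exp (l * g x) ∂(Measure.map (fun x : E n => -x) (gm n)) =
        ∫ x, Real.exp (l * g (-x)) ∂(gm n) :=
      integral_map hm hc.aestronglyMeasurable
    rw [hinv] at h1
    rw [h1]
    refine integral_congr_ae (Filter.Eventually.of_forall fun x => ?_)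
    show Real.exp (-(l * g x)) = Real.exp (l * g (-x))
    rw [hodd x, mul_neg]
  have hexp : ∀ l : ℝ, ∫ x, Real.exp (l * g x) ∂(gm n) ≤ Real.exp (l ^ 2 * R ^ 2 / 2) := by
    intro l
    have h1 := hG2 n (fun x => l * g x) (|l| * R) (mul_nonneg (abs_nonneg l) hR) (hsc l)
    rw [hsym l] at h1
    have h2 : 0 ≤ ∫ x, Real.exp (l * g x) ∂(gm n) := integral_nonneg fun x => (Real.exp_pos _).le
    have h3 : Real.exp ((|l| * R) ^ 2) = Real.exp (l ^ 2 * R ^ 2 / 2) ^ 2 := by
      rw [← Real.exp_nat_mul, mul_pow, sq_abs]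
      congr 1
      push_cast
      ring
    rw [h3, ← sq] at h1
    exact le_of_sq_le_sq h1 (Real.exp_pos _).le
  -- integrability of the square
  have hsq : Integrable (fun x => g x ^ 2) (gm n) := by
    refine Integrable.mono' ((hint 1).add (hint (-1))) ?_ ?_
    · exact (by fun_prop : Continuous fun x => g x ^ 2).aestronglyMeasurable
    · refine Filter.Eventually.of_forall fun x => ?_
      rw [Real.norm_of_nonneg (sq_nonneg _)]
      have := G3_two_add_sq_le (g x)
      show g x ^ 2 ≤ Real.exp (1 * g x) + Real.exp (-1 * g x)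
      rw [one_mul, neg_one_mul]
      linarith
  refine ⟨hsq, ?_⟩
  -- the bound for every `l`
  have hb : ∀ l : ℝ, 2 + l ^ 2 * ∫ x, g x ^ 2 ∂(gm n) ≤ 2 * Real.exp (l ^ 2 * R ^ 2 / 2) := by
    intro l
    have h1 : ∫ x, (2 + l ^ 2 * g x ^ 2) ∂(gm n) ≤
        ∫ x, (Real.exp (l * g x) + Real.exp (-(l * g x))) ∂(gm n) := by
      refine integral_mono ((integrable_const _).add (hsq.const_mul _)) ?_ ?_
      · refine (hint l).add ?_
        have := hint (-l)
        refine this.congr (Filter.Eventually.of_forall fun x => ?_)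
        show Real.exp (-l * g x) = Real.exp (-(l * g x))
        rw [neg_mul]
      · intro x
        have := G3_two_add_sq_le (l * g x)
        show 2 + l ^ 2 * g x ^ 2 ≤ Real.exp (l * g x) + Real.exp (-(l * g x))
        rw [mul_pow] at this
        exact this
    have hint' : Integrable (fun x => Real.exp (-(l * g x))) (gm n) := by
      refine (hint (-l)).congr (Filter.Eventually.of_forall fun x => ?_)
      show Real.exp (-l * g x) = Real.exp (-(l * g x))
      rw [neg_mul]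
    rw [integral_add (integrable_const _) (hsq.const_mul _), integral_add (hint l) hint',
      integral_const_mul, hsym l, integral_const, probReal_univ, one_smul] at h1
    have := hexp l
    linarith
  -- let `l` tend to `0`
  have hI : 0 ≤ ∫ x, g x ^ 2 ∂(gm n) := integral_nonneg fun x => sq_nonneg _
  set I := ∫ x, g x ^ 2 ∂(gm n) with hIdef
  refine le_of_forall_pos_le_add fun ε hε => ?_
  set m := min (1 / (R ^ 2 + 1)) (ε / (R ^ 4 + 1)) with hm
  have hm0 : 0 < m := lt_min (by positivity) (by positivity)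
  have hm1 : m * (R ^ 2 + 1) ≤ 1 := by
    have h1 : m ≤ 1 / (R ^ 2 + 1) := min_le_left _ _
    rwa [le_div_iff₀ (by positivity)] at h1
  have hm2 : m * (R ^ 4 + 1) ≤ ε := by
    have h1 : m ≤ ε / (R ^ 4 + 1) := min_le_right _ _
    rwa [le_div_iff₀ (by positivity)] at h1
  have h1 := hb (Real.sqrt m)
  rw [Real.sq_sqrt hm0.le] at h1
  have hs0 : 0 ≤ m * R ^ 2 / 2 := by positivity
  have hs1 : m * R ^ 2 / 2 ≤ 1 := by nlinarith
  have h2 : Real.exp (m * R ^ 2 / 2) ≤ 1 + m * R ^ 2 / 2 + (m * R ^ 2 / 2) ^ 2 := by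
    have h3 := Real.abs_exp_sub_one_sub_id_le (x := m * R ^ 2 / 2)
      (by rw [abs_of_nonneg hs0]; exact hs1)
    have h4 := (abs_le.1 h3).2
    linarith
  have h5 : m * I ≤ m * (R ^ 2 + ε) := by
    have h6 : m * I ≤ m * R ^ 2 + 2 * (m * R ^ 2 / 2) ^ 2 := by linarith
    have h7 : 2 * (m * R ^ 2 / 2) ^ 2 = m * (m * R ^ 4 / 2) := by ring
    have h8 : m * R ^ 4 / 2 ≤ ε := by nlinarith [sq_nonneg (R ^ 2)]
    have h9 : m * (m * R ^ 4 / 2) ≤ m * ε := mul_le_mul_of_nonneg_left h8 hm0.le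
    rw [h7] at h6
    linarith
  exact le_of_mul_le_mul_left h5 hm0

end Pool.Agent.helper81.CW
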