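import Pool.Agent.helper81.CW.Spec1

/-! # Project cw, module W2: the body `M n` has width `1` -/

open MeasureTheory Set
open scoped ENNReal

namespace Pool.Agent.helper81.CW

theorem W2_pn_nonneg {n : ℕ} (z : E n) : 0 ≤ pn z := Real.sqrt_nonneg _

theorem W2_nn_nonneg {n : ℕ} (z : E n) : 0 ≤ nn z := Real.sqrt_nonneg _

theorem W2_pn_sq {n : ℕ} (z : E n) : pn z ^ 2 = ∑ i, (max (z i) 0) ^ 2 :=
  Real.sq_sqrt (Finset.sum_nonneg fun _ _ => sq_nonneg _)

theorem W2_nn_sq {n : ℕ} (z : E n) : nn z ^ 2 = ∑ i, (min (z i) 0) ^ 2 :=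
  Real.sq_sqrt (Finset.sum_nonneg fun _ _ => sq_nonneg _)

theorem W2_pn_neg {n : ℕ} (z : E n) : pn (-z) = nn z := by
  unfold pn nn
  congr 1
  refine Finset.sum_congr rfl fun i _ => ?_
  have h : max ((-z) i) 0 = -min (z i) 0 := by
    have h1 : (-z) i = -(z i) := rfl
    rw [h1]
    rcases le_total (z i) 0 with h | h
    · rw [min_eq_left h, max_eq_left (by linarith)]
    · rw [min_eq_right h, max_eq_right (by linarith)]; simp
  rw [h, neg_sq]

theorem W2_nn_neg {n : ℕ} (z : E n) : nn (-z) = pn z := by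
  have h := W2_pn_neg (-z)
  rw [neg_neg] at h
  exact h.symm

theorem W2_norm_sq {n : ℕ} (z : E n) : ‖z‖ ^ 2 = pn z ^ 2 + nn z ^ 2 := by
  rw [EuclideanSpace.norm_sq_eq, W2_pn_sq, W2_nn_sq, ← Finset.sum_add_distrib]
  refine Finset.sum_congr rfl fun i _ => ?_
  rw [Real.norm_eq_abs, sq_abs]
  rcases le_total (z i) 0 with h | h
  · rw [min_eq_left h, max_eq_right h]; ring
  · rw [min_eq_right h, max_eq_left h]; ring

theorem W2_inner {n : ℕ} (u z : E n) : (inner ℝ u z : ℝ) = ∑ i, u i * z i := by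
  rw [PiLp.inner_apply]
  refine Finset.sum_congr rfl fun i _ => ?_
  simp [mul_comm]

theorem W2_inner_le {n : ℕ} (u z : E n) :
    (inner ℝ u z : ℝ) ≤ pn u * pn z + nn u * nn z := by
  rw [W2_inner]
  have h1 : ∑ i, u i * z i ≤
      ∑ i, max (u i) 0 * max (z i) 0 + ∑ i, min (u i) 0 * min (z i) 0 := by
    rw [← Finset.sum_add_distrib]
    refine Finset.sum_le_sum fun i _ => ?_
    rcases le_total (u i) 0 with h | h <;> rcases le_total (z i) 0 with h' | h'
    · rw [max_eq_right h, max_eq_right h', min_eq_left h, min_eq_left h']; linarith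
    · rw [max_eq_right h, max_eq_left h', min_eq_left h, min_eq_right h']
      nlinarith
    · rw [max_eq_left h, max_eq_right h', min_eq_right h, min_eq_left h']
      nlinarith
    · rw [max_eq_left h, max_eq_left h', min_eq_right h, min_eq_right h']; linarith
  have h2 : ∑ i, max (u i) 0 * max (z i) 0 ≤ pn u * pn z :=
    Real.sum_mul_le_sqrt_mul_sqrt _ _ _
  have h3 : ∑ i, min (u i) 0 * min (z i) 0 ≤ nn u * nn z :=
    Real.sum_mul_le_sqrt_mul_sqrt _ _ _
  linarith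

/-- the vector `α u⁺ - β u⁻` -/
noncomputable def W2_vec {n : ℕ} (u : E n) (α β : ℝ) : E n :=
  WithLp.toLp 2 fun i => α * max (u i) 0 + β * min (u i) 0

theorem W2_vec_max {n : ℕ} (u : E n) {α β : ℝ} (hα : 0 ≤ α) (hβ : 0 ≤ β) (i : Fin n) :
    max (W2_vec u α β i) 0 = α * max (u i) 0 := by
  show max (α * max (u i) 0 + β * min (u i) 0) 0 = α * max (u i) 0
  rcases le_total (u i) 0 with h | h
  · rw [max_eq_right h, min_eq_left h, mul_zero, zero_add]
    exact max_eq_right (mul_nonpos_of_nonneg_of_nonpos hβ h)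
  · rw [max_eq_left h, min_eq_right h, mul_zero, add_zero]
    exact max_eq_left (mul_nonneg hα h)

theorem W2_vec_min {n : ℕ} (u : E n) {α β : ℝ} (hα : 0 ≤ α) (hβ : 0 ≤ β) (i : Fin n) :
    min (W2_vec u α β i) 0 = β * min (u i) 0 := by
  show min (α * max (u i) 0 + β * min (u i) 0) 0 = β * min (u i) 0
  rcases le_total (u i) 0 with h | h
  · rw [max_eq_right h, min_eq_left h, mul_zero, zero_add]
    exact min_eq_left (mul_nonpos_of_nonneg_of_nonpos hβ h)
  · rw [max_eq_left h, min_eq_right h, mul_zero, add_zero]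
    exact min_eq_right (mul_nonneg hα h)

theorem W2_vec_pn {n : ℕ} (u : E n) {α β : ℝ} (hα : 0 ≤ α) (hβ : 0 ≤ β) :
    pn (W2_vec u α β) = α * pn u := by
  have h : pn (W2_vec u α β) ^ 2 = (α * pn u) ^ 2 := by
    rw [W2_pn_sq, mul_pow, W2_pn_sq, Finset.mul_sum]
    refine Finset.sum_congr rfl fun i _ => ?_
    rw [W2_vec_max u hα hβ, mul_pow]
  exact (pow_left_inj₀ (W2_pn_nonneg _) (mul_nonneg hα (W2_pn_nonneg _)) two_ne_zero).1 h

theorem W2_vec_nn {n : ℕ} (u : E n) {α β : ℝ} (hα : 0 ≤ α) (hβ : 0 ≤ β) :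
    nn (W2_vec u α β) = β * nn u := by
  have h : nn (W2_vec u α β) ^ 2 = (β * nn u) ^ 2 := by
    rw [W2_nn_sq, mul_pow, W2_nn_sq, Finset.mul_sum]
    refine Finset.sum_congr rfl fun i _ => ?_
    rw [W2_vec_min u hα hβ, mul_pow]
  exact (pow_left_inj₀ (W2_nn_nonneg _) (mul_nonneg hβ (W2_nn_nonneg _)) two_ne_zero).1 h

theorem W2_vec_inner {n : ℕ} (u : E n) (α β : ℝ) :
    (inner ℝ u (W2_vec u α β) : ℝ) = α * pn u ^ 2 + β * nn u ^ 2 := by
  rw [W2_inner, W2_pn_sq, W2_nn_sq, Finset.mul_sum, Finset.mul_sum, ← Finset.sum_add_distrib]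
  refine Finset.sum_congr rfl fun i _ => ?_
  show u i * (α * max (u i) 0 + β * min (u i) 0) = _
  rcases le_total (u i) 0 with h | h
  · rw [max_eq_right h, min_eq_left h]; ring
  · rw [max_eq_left h, min_eq_right h]; ring

theorem W2_mem {n : ℕ} {z : E n} :
    z ∈ M n ↔ pn z ^ 2 + nn z ^ 2 + Real.sqrt 2 * nn z ≤ 1 / 2 := by
  show ‖z‖ ^ 2 + Real.sqrt 2 * nn z ≤ 1 / 2 ↔ _
  rw [W2_norm_sq]

/-- the support function if the negative part is large -/
theorem W2_supp1 {n : ℕ} (u : E n) (hu : pn u ^ 2 + nn u ^ 2 = 1) (hb : 1 / 2 ≤ nn u ^ 2) :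
    supp (M n) u = 1 - nn u * Real.sqrt 2 / 2 := by
  have hr : Real.sqrt 2 ^ 2 = 2 := Real.sq_sqrt (by norm_num)
  have hr0 : 0 < Real.sqrt 2 := Real.sqrt_pos.2 (by norm_num)
  have ha := W2_pn_nonneg u
  have hb0 := W2_nn_nonneg u
  set r := Real.sqrt 2 with hrdef
  set a := pn u with hadef
  set b := nn u with hbdef
  have hbr : r / 2 ≤ b := by
    apply le_of_sq_le_sq _ hb0
    rw [div_pow, hr]; linarith
  have hbpos : 0 < b := by linarith
  refine IsGreatest.csSup_eq ⟨?_, ?_⟩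
  · have hβ : 0 ≤ 1 - r / (2 * b) := by
      rw [sub_nonneg, div_le_one (by linarith)]
      linarith
    refine ⟨W2_vec u 1 (1 - r / (2 * b)), ?_, ?_⟩
    · rw [W2_mem, W2_vec_pn u zero_le_one hβ, W2_vec_nn u zero_le_one hβ, ← hadef, ← hbdef]
      have e : (1 - r / (2 * b)) * b = b - r / 2 := by field_simp
      rw [e]
      nlinarith
    · show (inner ℝ u (W2_vec u 1 (1 - r / (2 * b))) : ℝ) = _
      rw [W2_vec_inner, ← hadef, ← hbdef]
      have e : (1 - r / (2 * b)) * b ^ 2 = b ^ 2 - b * r / 2 := by field_simp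
      rw [e]
      linarith
  · rintro _ ⟨z, hz, rfl⟩
    show (inner ℝ u z : ℝ) ≤ _
    rw [W2_mem] at hz
    have h1 := W2_inner_le u z
    have hp := W2_pn_nonneg z
    have hq := W2_nn_nonneg z
    set p := pn z
    set q := nn z
    have h2 : p ^ 2 + (q + r / 2) ^ 2 ≤ 1 := by nlinarith
    have h3 : a * p + b * (q + r / 2) ≤ 1 := by
      nlinarith [sq_nonneg (a - p), sq_nonneg (b - (q + r / 2))]
    have h4 : (inner ℝ u z : ℝ) ≤ a * p + b * q := h1
    nlinarith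

/-- the support function if the negative part is small -/
theorem W2_supp2 {n : ℕ} (u : E n) (hu : pn u ^ 2 + nn u ^ 2 = 1) (hb : nn u ^ 2 ≤ 1 / 2) :
    supp (M n) u = pn u * Real.sqrt 2 / 2 := by
  have hr : Real.sqrt 2 ^ 2 = 2 := Real.sq_sqrt (by norm_num)
  have hr0 : 0 < Real.sqrt 2 := Real.sqrt_pos.2 (by norm_num)
  have ha := W2_pn_nonneg u
  have hb0 := W2_nn_nonneg u
  set r := Real.sqrt 2 with hrdef
  set a := pn u with hadef
  set b := nn u with hbdef
  have hba : b ≤ a := by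
    apply le_of_sq_le_sq _ ha
    linarith
  have hapos : 0 < a := by
    rcases ha.eq_or_lt with h | h
    · rw [← h] at hu
      have : b ^ 2 = 1 := by linarith
      linarith
    · exact h
  refine IsGreatest.csSup_eq ⟨?_, ?_⟩
  · have hα : 0 ≤ r / (2 * a) := by positivity
    refine ⟨W2_vec u (r / (2 * a)) 0, ?_, ?_⟩
    · rw [W2_mem, W2_vec_pn u hα le_rfl, W2_vec_nn u hα le_rfl, ← hadef, ← hbdef]
      have e : r / (2 * a) * a = r / 2 := by field_simp
      rw [e]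
      have : (r / 2) ^ 2 = 1 / 2 := by rw [div_pow, hr]; norm_num
      rw [this]
      simp
    · show (inner ℝ u (W2_vec u (r / (2 * a)) 0) : ℝ) = _
      rw [W2_vec_inner, ← hadef, ← hbdef]
      field_simp
      ring
  · rintro _ ⟨z, hz, rfl⟩
    show (inner ℝ u z : ℝ) ≤ _
    rw [W2_mem] at hz
    have h1 := W2_inner_le u z
    have hp := W2_pn_nonneg z
    have hq := W2_nn_nonneg z
    set p := pn z
    set q := nn z
    have h4 : (inner ℝ u z : ℝ) ≤ a * p + b * q := h1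
    have h5 : r * q ≤ 1 / 2 := by nlinarith [sq_nonneg p, sq_nonneg q]
    have h6 : 0 ≤ r / 2 - q := by
      nlinarith
    have h7 : p ≤ r / 2 - q := by
      apply le_of_sq_le_sq _ h6
      nlinarith
    have h8 : a * p ≤ a * (r / 2 - q) := mul_le_mul_of_nonneg_left h7 ha
    have h9 : b * q ≤ a * q := mul_le_mul_of_nonneg_right hba hq
    nlinarith

theorem W2 : W2_stmt := by
  intro n u hu
  have h1 : pn u ^ 2 + nn u ^ 2 = 1 := by rw [← W2_norm_sq, hu]; norm_num
  have h2 : pn (-u) ^ 2 + nn (-u) ^ 2 = 1 := by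
    rw [W2_pn_neg, W2_nn_neg]; linarith
  rcases le_total (nn u ^ 2) (1 / 2) with h | h
  · have h3 : 1 / 2 ≤ nn (-u) ^ 2 := by rw [W2_nn_neg]; linarith
    rw [W2_supp2 u h1 h, W2_supp1 (-u) h2 h3, W2_nn_neg]
    ring
  · have h3 : nn (-u) ^ 2 ≤ 1 / 2 := by rw [W2_nn_neg]; linarith
    rw [W2_supp1 u h1 h, W2_supp2 (-u) h2 h3, W2_pn_neg]
    ring

end Pool.Agent.helper81.CW
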